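import Pool.Agent.K9h47.Frechet.Main

/-!
# A Fréchet algebra without non-zero injective modules

The algebra with identity is the algebra `ℂ⟦z⟧` of formal power series with the topology of
coefficientwise convergence, the algebra without identity is its maximal ideal `z ℂ⟦z⟧`.

Idea of the proof.  Let `J` be an injective Fréchet module and `x ∈ J`.  The module
`Y = J ⊕ ℂ y` with `z y = x` is a Fréchet module containing `J` as a complemented subspace, so
there is a module retraction `Y → J`, and the image `w` of `y` satisfies `z w = x`.  Hence `z`,
and every power of `z`, acts surjectively on `J`.  On the other hand, the action is jointly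
continuous and every neighbourhood of zero in the algebra contains a whole line `ℂ z ^ n`; so every
neighbourhood of zero in `J` contains `z ^ n J = J` for some `n`.  As `J` is Hausdorff, `J = 0`.
-/

set_option autoImplicit false

universe v

open Pool.Agent.K9h47.Frechet

namespace Pool.Agent.Results.MP_5446c4_an.NoInjectives

/-- There is a commutative Fréchet algebra `A` with identity such that no non-zero Fréchet
`A`-module is injective (here the identity acts as the identity map on modules), and there is
also a commutative Fréchet algebra `A` without identity such that no non-zero Fréchet `A`-module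
is injective (here there is no condition on the modules). -/
theorem result :
    (∃ A : FrechetAlgebra.{0}, (∃ e : A.carrier, A.IsIdentity e) ∧
      (∀ a b : A.carrier, a * b = b * a) ∧
      (∃ X : FrechetModule.{0, 0} A, Nontrivial X.carrier) ∧
      ∀ J : FrechetModule.{0, v} A, J.IsInjective → Subsingleton J.carrier) ∧
    (∃ A : FrechetAlgebra.{0}, (¬ ∃ e : A.carrier, A.IsIdentity e) ∧
      (∀ a b : A.carrier, a * b = b * a) ∧
      (∃ X : FrechetModule.{0, 0} A, Nontrivial X.carrier) ∧
      ∀ J : FrechetModule.{0, v} A, J.IsInjective → Subsingleton J.carrier) :=
  ⟨⟨algC, ⟨_, isIdentity_one_algC⟩, mul_comm_ps, exists_nontrivial_algC,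
      fun J hJ => subsingleton_of_isInjective divC J hJ⟩,
    ⟨alg0, fun ⟨e, he⟩ => not_isIdentity_alg0 e he, mul0_comm, exists_nontrivial_alg0,
      fun J hJ => subsingleton_of_isInjective div0 J hJ⟩⟩

end Pool.Agent.Results.MP_5446c4_an.NoInjectives
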